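import Pool.Agent.R957.Crn.Defs

open Filter Set MeasureTheory ProbabilityTheory Topology
open scoped ENNReal NNReal

namespace Pool.Agent.R957.Crn

noncomputable section

set_option warn.classDefReducibility false

variable {S : Type} [MeasurableSpace S] [DiscreteMeasurableSpace S] [Countable S]

/-- law of the independent next states -/
def mapLaw (p : S → PMF S) : Measure (ℕ × S → S) :=
  Measure.infinitePi fun a : ℕ × S => (p a.2).toMeasure

instance (p : S → PMF S) : IsProbabilityMeasure (mapLaw p) := by unfold mapLaw; infer_instance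

def coordSA (S : Type) [MeasurableSpace S] (a : ℕ × S) : MeasurableSpace (ℕ × S → S) :=
  MeasurableSpace.comap (fun ω : ℕ × S → S => ω a) inferInstance

def past (S : Type) [MeasurableSpace S] (N : ℕ) : MeasurableSpace (ℕ × S → S) :=
  ⨆ a ∈ {a : ℕ × S | a.1 < N}, coordSA S a

def present (S : Type) [MeasurableSpace S] (N : ℕ) : MeasurableSpace (ℕ × S → S) :=
  ⨆ a ∈ {a : ℕ × S | a.1 = N}, coordSA S a

omit [DiscreteMeasurableSpace S] [Countable S] in
theorem coordSA_le (a : ℕ × S) : coordSA S a ≤ MeasurableSpace.pi :=
  (measurable_pi_apply a).comap_le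

omit [DiscreteMeasurableSpace S] [Countable S] in
theorem past_le (N : ℕ) : past S N ≤ MeasurableSpace.pi :=
  iSup₂_le fun a _ => coordSA_le a

omit [DiscreteMeasurableSpace S] [Countable S] in
theorem present_le (N : ℕ) : present S N ≤ MeasurableSpace.pi :=
  iSup₂_le fun a _ => coordSA_le a

omit [DiscreteMeasurableSpace S] [Countable S] in
theorem past_mono {M N : ℕ} (h : M ≤ N) : past S M ≤ past S N :=
  iSup₂_le fun a ha => le_iSup₂_of_le a (lt_of_lt_of_le ha h) le_rfl

omit [DiscreteMeasurableSpace S] [Countable S] in
theorem coord_meas_past {N : ℕ} {a : ℕ × S} (ha : a.1 < N) :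
    Measurable[past S N] fun ω : ℕ × S → S => ω a :=
  Measurable.of_comap_le (le_iSup₂_of_le a ha le_rfl)

omit [DiscreteMeasurableSpace S] [Countable S] in
theorem coord_meas_present {N : ℕ} {a : ℕ × S} (ha : a.1 = N) :
    Measurable[present S N] fun ω : ℕ × S → S => ω a :=
  Measurable.of_comap_le (le_iSup₂_of_le a ha le_rfl)

theorem chain_meas (z : S) (n : ℕ) : Measurable[past S n] fun f : ℕ × S → S => chain z f n := by
  induction n with
  | zero => exact measurable_const
  | succ n ih =>
    refine @measurable_to_countable' _ _ _ _ (past S (n + 1)) _ fun w => ?_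
    have h1 : (fun f : ℕ × S → S => chain z f (n + 1)) ⁻¹' {w} =
        ⋃ y : S, ((fun f : ℕ × S → S => chain z f n) ⁻¹' {y}) ∩
          ((fun f : ℕ × S → S => f (n, y)) ⁻¹' {w}) := by
      ext f
      simp [chain]
    rw [h1]
    refine MeasurableSet.iUnion fun y => MeasurableSet.inter ?_ ?_
    · exact past_mono (Nat.le_succ n) _ (ih (measurableSet_singleton y))
    · exact (coord_meas_past (a := (n, y)) (Nat.lt_succ_self n)) (measurableSet_singleton w)

theorem chain_meas' (z : S) (n : ℕ) : Measurable fun f : ℕ × S → S => chain z f n :=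
  (chain_meas z n).mono (past_le n) le_rfl

omit [DiscreteMeasurableSpace S] [Countable S] in
theorem indep_past_present (p : S → PMF S) (N : ℕ) :
    Indep (past S N) (present S N) (mapLaw p) := by
  have h : iIndepFun (fun (a : ℕ × S) (ω : ℕ × S → S) => ω a) (mapLaw p) :=
    iIndepFun_infinitePi (X := fun (_ : ℕ × S) (f : S) => f) fun _ => measurable_id
  rw [iIndepFun_iff_iIndep] at h
  refine indep_iSup_of_disjoint (fun a => coordSA_le a) h ?_
  rw [Set.disjoint_left]
  intro a ha hb
  have ha' : a.1 < N := ha
  have hb' : a.1 = N := hb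
  omega

/-- one step -/
theorem one_step (p : S → PMF S) (z : S) (H : S → ℝ≥0∞) (N : ℕ)
    (G : (ℕ × S → S) → ℝ≥0∞) (hG : Measurable[past S N] G) :
    ∫⁻ f, G f * H (chain z f (N + 1)) ∂(mapLaw p) =
      ∫⁻ f, G f * ∑' y, p (chain z f N) y * H y ∂(mapLaw p) := by
  classical
  have hc := chain_meas' z N
  have hG' : Measurable G := hG.mono (past_le N) le_rfl
  have split : ∀ F : (ℕ × S → S) → ℝ≥0∞, Measurable F →
      ∫⁻ f, G f * F f ∂(mapLaw p) =
      ∑' y : S, ∫⁻ f, (G f * if chain z f N = y then 1 else 0) * F f ∂(mapLaw p) := by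
    intro F hF
    rw [← lintegral_tsum]
    · refine lintegral_congr fun f => ?_
      rw [tsum_eq_single (chain z f N)]
      · simp
      · intro y hy
        simp [Ne.symm hy]
    · intro y
      have : Measurable fun f : ℕ × S → S => if chain z f N = y then (1 : ℝ≥0∞) else 0 :=
        Measurable.ite (hc (measurableSet_singleton y)) measurable_const measurable_const
      exact ((hG'.mul this).mul hF).aemeasurable
  have hH : Measurable H := Measurable.of_discrete
  have hPH : Measurable fun x : S => ∑' y, p x y * H y := Measurable.of_discrete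
  have s1 := split (fun f => H (chain z f (N + 1))) (hH.comp (chain_meas' z (N + 1)))
  have s2 := split (fun f => ∑' x, p (chain z f N) x * H x) (hPH.comp hc)
  rw [s1, s2]
  refine tsum_congr fun y => ?_
  have e1 : ∀ f : ℕ × S → S, (G f * if chain z f N = y then 1 else 0) * H (chain z f (N + 1)) =
      (G f * if chain z f N = y then 1 else 0) * H (f (N, y)) := by
    intro f
    by_cases h : chain z f N = y
    · rw [chain, h]
    · simp [h]
  have e2 : ∀ f : ℕ × S → S, (G f * if chain z f N = y then 1 else 0) *
      (∑' x, p (chain z f N) x * H x) =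
      (G f * if chain z f N = y then 1 else 0) * (∑' x, p y x * H x) := by
    intro f
    by_cases h : chain z f N = y
    · rw [h]
    · simp [h]
  simp_rw [e1, e2]
  have m1 : Measurable[past S N] fun f : ℕ × S → S => G f * if chain z f N = y then 1 else 0 :=
    Measurable.mul hG (Measurable.ite ((chain_meas z N) (measurableSet_singleton y))
      measurable_const measurable_const)
  have m2 : Measurable[present S N] fun f : ℕ × S → S => H (f (N, y)) :=
    hH.comp (coord_meas_present (a := (N, y)) rfl)
  rw [lintegral_mul_eq_lintegral_mul_lintegral_of_independent_measurableSpace (past_le N)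
    (present_le N) (indep_past_present p N) m1 m2]
  rw [lintegral_mul_const _ (m1.mono (past_le N) le_rfl)]
  congr 1
  have h1 : ∫⁻ f, H (f (N, y)) ∂(mapLaw p) = ∫⁻ x, H x ∂((mapLaw p).map fun f => f (N, y)) := by
    rw [lintegral_map hH (measurable_pi_apply (N, y))]
  rw [h1, mapLaw, Measure.infinitePi_map_eval, lintegral_countable']
  refine tsum_congr fun x => ?_
  rw [PMF.toMeasure_apply_singleton _ _ (measurableSet_singleton x), mul_comm]

/-- **Foster's criterion.** If `P H ≤ H` outside a set `K` on which ..., and `H` tends to infinity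
along the states, then the chain does not tend to infinity. -/
theorem not_tendsto (p : S → PMF S) (H : S → ℝ≥0∞) (K : Set S) (hK : K.Finite)
    (hH : ∀ y, H y ≠ ∞) (hinf : Tendsto H cofinite (𝓝 ∞))
    (hstep : ∀ y, y ∉ K → ∑' x, p y x * H x ≤ H y) (z : S) :
    ∀ᵐ f ∂(mapLaw p), ¬ Tendsto (chain z f) atTop cofinite := by
  classical
  -- for given starting time and state
  have key : ∀ (N : ℕ) (y : S), ∀ᵐ f ∂(mapLaw p), chain z f N = y →
      (∀ k, N ≤ k → chain z f k ∉ K) → ¬ Tendsto (fun n => H (chain z f (N + n))) atTop (𝓝 ∞) := by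
    intro N y
    let A : ℕ → Set (ℕ × S → S) := fun n => {f | chain z f N = y ∧
      ∀ k, N ≤ k → k < N + n → chain z f k ∉ K}
    have hAm : ∀ n, MeasurableSet[past S (N + n)] (A n) := by
      intro n
      have e : A n = {f | chain z f N = y} ∩ ⋂ k : ℕ, ⋂ _ : N ≤ k, ⋂ _ : k < N + n,
          {f | chain z f k ∉ K} := by
        ext f; simp [A]
      rw [e]
      refine MeasurableSet.inter ?_ ?_
      · exact past_mono (Nat.le_add_right N n) _ ((chain_meas z N) (measurableSet_singleton y))
      · refine MeasurableSet.iInter fun k => MeasurableSet.iInter fun _ =>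
          MeasurableSet.iInter fun hk => ?_
        exact past_mono (by omega) _
          ((chain_meas z k) (MeasurableSet.of_discrete (s := {x : S | x ∉ K})))
    let a : ℕ → ℝ≥0∞ := fun n => ∫⁻ f, (A n).indicator 1 f * H (chain z f (N + n)) ∂(mapLaw p)
    have ha : ∀ n, a (n + 1) ≤ a n := by
      intro n
      -- restrict to not in K at time `N + n`
      let B : Set (ℕ × S → S) := A n ∩ {f | chain z f (N + n) ∉ K}
      have hBA : A (n + 1) ⊆ B := by
        intro f hf
        exact ⟨⟨hf.1, fun k h1 h2 => hf.2 k h1 (by omega)⟩, hf.2 (N + n) (by omega) (by omega)⟩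
      have hBm : MeasurableSet[past S (N + n)] B :=
        (hAm n).inter ((chain_meas z (N + n)) (MeasurableSet.of_discrete (s := {x : S | x ∉ K})))
      calc a (n + 1) ≤ ∫⁻ f, B.indicator 1 f * H (chain z f (N + n + 1)) ∂(mapLaw p) := by
            refine lintegral_mono fun f => ?_
            refine mul_le_mul_left ?_ _
            exact Set.indicator_le_indicator_of_subset hBA (fun _ => zero_le) f
        _ = ∫⁻ f, B.indicator 1 f * ∑' x, p (chain z f (N + n)) x * H x ∂(mapLaw p) := by
            refine one_step p z H (N + n) _ ?_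
            exact (measurable_const (a := (1 : ℝ≥0∞))).indicator hBm
        _ ≤ a n := by
            refine lintegral_mono fun f => ?_
            by_cases hf : f ∈ B
            · have h1 : f ∈ A n := hf.1
              simp only [Set.indicator_of_mem hf, Set.indicator_of_mem h1, Pi.one_apply, one_mul]
              exact hstep _ hf.2
            · simp [hf]
    have ha' : ∀ n, a n ≤ H y := by
      intro n
      induction n with
      | zero =>
        calc a 0 ≤ ∫⁻ _, H y ∂(mapLaw p) := by
              refine lintegral_mono fun f => ?_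
              by_cases hf : f ∈ A 0
              · simp only [Set.indicator_of_mem hf, Pi.one_apply, one_mul]
                have h2 : chain z f N = y := hf.1
                simp only [add_zero, h2, le_refl]
              · simp [hf]
          _ = H y := by simp
      | succ n ih => exact (ha n).trans ih
    have hmeas : ∀ n, Measurable fun f => (A n).indicator 1 f * H (chain z f (N + n)) := by
      intro n
      have h1 : MeasurableSet (A n) := past_le _ _ (hAm n)
      have hH : Measurable H := Measurable.of_discrete
      exact ((measurable_const (a := (1 : ℝ≥0∞))).indicator h1).mul (hH.comp (chain_meas' z (N + n)))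
    have hfatou : ∫⁻ f, liminf (fun n => (A n).indicator 1 f * H (chain z f (N + n))) atTop
        ∂(mapLaw p) ≤ H y := by
      refine (lintegral_liminf_le hmeas).trans ?_
      refine liminf_le_of_le ⟨0, by simp⟩ ?_
      intro b hb
      obtain ⟨n, hn⟩ := hb.exists
      exact hn.trans (ha' n)
    have hlt : ∀ᵐ f ∂(mapLaw p),
        liminf (fun n => (A n).indicator 1 f * H (chain z f (N + n))) atTop < ∞ :=
      ae_lt_top (Measurable.liminf hmeas) (ne_top_of_le_ne_top (hH y) hfatou)
    filter_upwards [hlt] with f hf h1 h2 h3
    have e : (fun n => (A n).indicator 1 f * H (chain z f (N + n)))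
        = fun n => H (chain z f (N + n)) := by
      funext n
      have : f ∈ A n := ⟨h1, fun k hk _ => h2 k hk⟩
      simp only [Set.indicator_of_mem this, Pi.one_apply, one_mul]
    rw [e, h3.liminf_eq] at hf
    exact lt_irrefl _ hf
  have hall : ∀ᵐ f ∂(mapLaw p), ∀ (N : ℕ) (y : S), chain z f N = y →
      (∀ k, N ≤ k → chain z f k ∉ K) → ¬ Tendsto (fun n => H (chain z f (N + n))) atTop (𝓝 ∞) := by
    rw [ae_all_iff]
    intro N
    rw [ae_all_iff]
    exact key N
  filter_upwards [hall] with f hf ht
  have h1 : ∀ᶠ n in atTop, chain z f n ∉ K := by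
    have : Kᶜ ∈ (cofinite : Filter S) := by simpa using hK
    exact ht this
  obtain ⟨N, hN⟩ := eventually_atTop.1 h1
  refine hf N _ rfl (fun k hk => hN k hk) ?_
  have h2 : Tendsto (fun n => H (chain z f n)) atTop (𝓝 ∞) := hinf.comp ht
  have h3 : Tendsto (fun n => N + n) atTop atTop := tendsto_atTop_mono (fun n => Nat.le_add_left n N) tendsto_id
  exact h2.comp h3

end

end Pool.Agent.R957.Crn
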