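import Mathlib

/-!
# Continuous-time Markov chains from jump rates; stochastic reaction networks with switching
-/

open Filter Set MeasureTheory ProbabilityTheory
open scoped ENNReal NNReal

namespace Pool.Agent.R957.Crn

noncomputable section

/-! ### Continuous-time Markov chains (jump chain and holding times) -/

section CTMC

variable {S : Type}

/-- total jump rate of `z` -/
def total (q : S → S → ℝ≥0∞) (z : S) : ℝ≥0∞ := ∑' z', q z z'

open Classical in
/-- the law of the next state: proportional to the jump rates -/
def jump (q : S → S → ℝ≥0∞) (z : S) : PMF S :=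
  if h : total q z ≠ 0 ∧ total q z ≠ ∞ then PMF.normalize (q z) h.1 h.2 else PMF.pure z

/-- the sample space: a next state for every time and every state, and a sequence of numbers -/
abbrev Sample (S : Type) : Type := (ℕ × S → S) × (ℕ → ℝ)

/-- their law: all independent, the next state of `z` with law `jump q z`, the numbers exponential
with parameter `1` -/
def law [MeasurableSpace S] (q : S → S → ℝ≥0∞) : Measure (Sample S) :=
  (Measure.infinitePi fun a : ℕ × S => (jump q a.2).toMeasure).prod
    (Measure.infinitePi fun _ : ℕ => expMeasure 1)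

/-- the jump chain started at `z` -/
def chain (z : S) (f : ℕ × S → S) : ℕ → S
  | 0 => z
  | n + 1 => f (n, chain z f n)

/-- the time of the `n`-th jump: the holding time in the `k`-th state of the jump chain is
exponential with parameter the total jump rate of this state -/
def jumpTime (q : S → S → ℝ≥0∞) (z : S) (ω : Sample S) (n : ℕ) : ℝ≥0∞ :=
  ∑ k ∈ Finset.range n, ENNReal.ofReal (ω.2 k) / total q (chain z ω.1 k)

/-- the state at time `t` of the chain started at `z`: the `n`-th state of the jump chain, if
`t` is between the times of the `n`-th and the `n+1`-st jumps -/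
def stateAt (q : S → S → ℝ≥0∞) (z : S) (ω : Sample S) (t : ℝ) : S :=
  chain z ω.1 (sInf {n | ENNReal.ofReal t < jumpTime q z ω (n + 1)})

end CTMC

/-! ### Reaction networks -/

/-- A finite set of reactions `y → y'` on `d` species with rate constants: `R (y, y')` is the rate
constant of the reaction `y → y'`, and `0` if the reaction does not belong to the set. -/
abbrev Network (d : ℕ) : Type := ((Fin d → ℕ) × (Fin d → ℕ)) →₀ ℝ≥0

variable {d n : ℕ}

/-- the rate of a reaction with rate constant `c` and source `y` in the state `x` (mass action) -/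
def massAction (c : ℝ≥0) (y x : Fin d → ℕ) : ℝ≥0 := c * ∏ m, ((x m).descFactorial (y m) : ℝ≥0)

/-- every source complex is `0` or a unit vector -/
def AtMostMonomolecular (R : Network d) : Prop :=
  ∀ r ∈ R.support, r.1 = 0 ∨ ∃ l, r.1 = Pi.single l 1

/-- `M` is the matrix with `∑ λ(x) (y' - y) = M x + o(‖x‖)` -/
def IsDrift (R : Network d) (M : Matrix (Fin d) (Fin d) ℝ) : Prop :=
  ∀ m, (fun x : Fin d → ℕ => (R.sum fun r c => (massAction c r.1 x : ℝ) *
      ((r.2 m : ℝ) - r.1 m)) - M.mulVec (fun l => (x l : ℝ)) m)
    =o[cofinite] fun x => ∑ l, (x l : ℝ)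

open Classical in
/-- jump rates of the mixed process: in environment `i` the reactions of `R i` take place, and the
environment jumps from `i` to `j ≠ i` at rate `κ Q i j` -/
def rate (R : Fin n → Network d) (Q : Fin n → Fin n → ℝ≥0) (κ : ℝ≥0)
    (z z' : (Fin d → ℕ) × Fin n) : ℝ≥0∞ :=
  ((R z.2).sum fun r c => if z' = (z.1 + r.2 - r.1, z.2) then (massAction c r.1 z.1 : ℝ≥0∞) else 0)
    + ∑ j ∈ Finset.univ.erase z.2, if z' = (z.1, j) then
      ((κ * Q z.2 j : ℝ≥0) : ℝ≥0∞) else 0

/-- the chain of the environments is irreducible -/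
def IrreducibleRates (Q : Fin n → Fin n → ℝ≥0) : Prop :=
  ∀ i j, Relation.ReflTransGen (fun a b => a ≠ b ∧ Q a b ≠ 0) i j

/-- The state `z` is evanescent: with positive probability the number of molecules tends to
infinity. -/
def Evanescent (R : Fin n → Network d) (Q : Fin n → Fin n → ℝ≥0) (κ : ℝ≥0)
    (z : (Fin d → ℕ) × Fin n) : Prop :=
  0 < law (rate R Q κ) {ω | Tendsto (fun t : ℝ => ∑ m, (stateAt (rate R Q κ) z ω t).1 m)
    atTop atTop}

end

end Pool.Agent.R957.Crn
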