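import Pool.Agent.R957.Crn.Net

open Filter Set MeasureTheory ProbabilityTheory Topology
open scoped ENNReal NNReal

namespace Pool.Agent.R957.Crn

noncomputable section

lemma finite_sub (C : ℕ) : {z : (Fin 2 → ℕ) × Fin 2 | z.1 0 + z.1 1 ≤ C}.Finite := by
  refine ((Set.finite_Iic (fun _ : Fin 2 => C)).prod (Set.finite_univ (α := Fin 2))).subset ?_
  rintro ⟨x, i⟩ hx
  refine ⟨fun m => ?_, trivial⟩
  simp only [Set.mem_ofPred_eq] at hx
  fin_cases m
  · change x 0 ≤ C; omega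
  · change x 1 ≤ C; omega

lemma uf_tendsto {θ : ℝ} (h0 : 0 < θ) : Tendsto (uf θ) atTop atTop := by
  unfold uf
  refine (tendsto_rpow_atTop h0).comp ?_
  exact tendsto_atTop_add_const_left _ _ tendsto_natCast_atTop_atTop

lemma finite_uf {θ : ℝ} (h0 : 0 < θ) (C : ℝ) :
    {z : (Fin 2 → ℕ) × Fin 2 | uf θ (z.1 0 + z.1 1) ≤ C}.Finite := by
  obtain ⟨N, hN⟩ := eventually_atTop.1 ((uf_tendsto h0).eventually_gt_atTop C)
  refine (finite_sub N).subset fun z hz => ?_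
  simp only [Set.mem_ofPred_eq] at hz ⊢
  by_contra h
  have := hN (z.1 0 + z.1 1) (by omega)
  linarith

/-- the Lyapunov function as a function of the state -/
def HH (θ β : ℝ) (z : (Fin 2 → ℕ) × Fin 2) : ℝ≥0∞ := ENNReal.ofReal (lyap θ β z.2 (z.1 0) (z.1 1))

lemma HH_tendsto {θ β : ℝ} (h0 : 0 < θ) (hβ : 0 ≤ β) : Tendsto (HH θ β) cofinite (𝓝 ∞) := by
  rw [ENNReal.tendsto_nhds_top_iff_nnreal]
  intro C
  have hf := finite_uf h0 (C : ℝ)
  rw [eventually_cofinite]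
  refine hf.subset fun z hz => ?_
  simp only [Set.mem_ofPred_eq, not_lt] at hz ⊢
  have h1 := le_lyap (θ := θ) hβ z.2 (z.1 0) (z.1 1)
  have h2 : lyap θ β z.2 (z.1 0) (z.1 1) ≤ C := by
    unfold HH at hz
    rwa [ENNReal.ofReal_le_iff_le_toReal ENNReal.coe_ne_top, ENNReal.coe_toReal] at hz
  exact h1.trans h2

lemma cast_ofReal (c : ℝ≥0) : (c : ℝ≥0∞) = ENNReal.ofReal (c : ℝ) := by
  rw [ENNReal.ofReal_coe_nnreal]

lemma step0 {θ : ℝ} {κ : ℝ≥0} (hκ : 0 < κ) (h0 : 0 < θ) (h1 : θ ≤ 1) (h6 : θ ≤ κ / 6)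
    (x : Fin 2 → ℕ) (hbig : 144 ≤ uf θ (x 0 + x 1)) :
    ∑' z', rate nets sw κ (x, 0) z' * HH θ (3 * θ / (2 * κ)) z' ≤
      total (rate nets sw κ) (x, 0) * HH θ (3 * θ / (2 * κ)) (x, 0) := by
  have hκ' : (0 : ℝ) < κ := by exact_mod_cast hκ
  set β := 3 * θ / (2 * (κ : ℝ)) with hβ
  have hβ0 : 0 ≤ β := by rw [hβ]; positivity
  have hL := fun i a b => (lyap_pos (θ := θ) hβ0 i a b).le
  rw [rate0, total0]
  unfold HH
  simp only [Matrix.cons_val_zero, Matrix.cons_val_one]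
  have L1 := hL 0 (x 0 - 1) (x 1 + 1)
  have L2 := hL 0 (x 0) (x 1 + 1)
  have L3 := hL 0 (x 0 + 1) (x 1)
  have L4 := hL 1 (x 0) (x 1)
  have e2 : (2 : ℝ≥0∞) = ENNReal.ofReal 2 := by norm_num
  rw [e2, cast_ofReal κ, cast_ofReal, ← ENNReal.ofReal_natCast, ← ENNReal.ofReal_natCast,
    ← ENNReal.ofReal_mul (by positivity), ← ENNReal.ofReal_mul (by positivity),
    ← ENNReal.ofReal_mul (by positivity), ← ENNReal.ofReal_mul (by positivity),
    ← ENNReal.ofReal_mul (by positivity), ← ENNReal.ofReal_add (by positivity)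
      (by positivity), ← ENNReal.ofReal_add (by positivity)
      (by positivity), ← ENNReal.ofReal_add (by positivity)
      (by positivity)]
  refine ENNReal.ofReal_le_ofReal ?_
  have := drift0 hκ' h0 h1 h6 (x 0) (x 1) hbig
  push_cast
  exact this

lemma step1 {θ : ℝ} {κ : ℝ≥0} (hκ : 0 < κ) (h0 : 0 < θ) (h1 : θ ≤ 1) (h6 : θ ≤ κ / 6)
    (x : Fin 2 → ℕ) :
    ∑' z', rate nets sw κ (x, 1) z' * HH θ (3 * θ / (2 * κ)) z' ≤
      total (rate nets sw κ) (x, 1) * HH θ (3 * θ / (2 * κ)) (x, 1) := by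
  have hκ' : (0 : ℝ) < κ := by exact_mod_cast hκ
  set β := 3 * θ / (2 * (κ : ℝ)) with hβ
  have hβ0 : 0 ≤ β := by rw [hβ]; positivity
  have hL := fun i a b => (lyap_pos (θ := θ) hβ0 i a b).le
  rw [rate1, total1]
  unfold HH
  simp only [Matrix.cons_val_zero, Matrix.cons_val_one]
  have L1 := hL 1 (x 0 + 1) (x 1)
  have L2 := hL 1 (x 0) (x 1 - 1)
  have L4 := hL 0 (x 0) (x 1)
  have e2 : (2 : ℝ≥0∞) = ENNReal.ofReal 2 := by norm_num
  have e3 : ((x 0 : ℝ≥0∞) + 1) = ENNReal.ofReal ((x 0 : ℝ) + 1) := by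
    rw [ENNReal.ofReal_add (by positivity) (by norm_num)]; simp
  rw [e3, e2, cast_ofReal κ, cast_ofReal, ← ENNReal.ofReal_natCast (x 1),
    ← ENNReal.ofReal_mul (by positivity), ← ENNReal.ofReal_mul (by positivity),
    ← ENNReal.ofReal_mul (by positivity), ← ENNReal.ofReal_mul (by positivity),
    ← ENNReal.ofReal_mul (by positivity), ← ENNReal.ofReal_add (by positivity)
      (by positivity), ← ENNReal.ofReal_add (by positivity)
      (by positivity)]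
  refine ENNReal.ofReal_le_ofReal ?_
  have := drift1 hκ' h0 h1 h6 (x 0) (x 1)
  push_cast
  exact this

theorem nets_not_tendsto {κ : ℝ≥0} (hκ : 0 < κ) (z : (Fin 2 → ℕ) × Fin 2) :
    ∀ᵐ f ∂(mapLaw (jump (rate nets sw κ))), ¬ Tendsto (chain z f) atTop cofinite := by
  have hκ' : (0 : ℝ) < κ := by exact_mod_cast hκ
  set θ : ℝ := min (1 / 2) (κ / 6) with hθ
  have h0 : 0 < θ := by rw [hθ]; positivity
  have h1 : θ ≤ 1 := (min_le_left _ _).trans (by norm_num)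
  have h6 : θ ≤ κ / 6 := min_le_right _ _
  have hβ0 : 0 ≤ 3 * θ / (2 * (κ : ℝ)) := by positivity
  refine not_tendsto _ (HH θ (3 * θ / (2 * κ))) {z | uf θ (z.1 0 + z.1 1) ≤ 144}
    (finite_uf h0 144) (fun y => ENNReal.ofReal_ne_top) (HH_tendsto h0 hβ0) (fun y hy => ?_) z
  obtain ⟨x, i⟩ := y
  refine jump_mean κ _ _ ?_
  simp only [Set.mem_ofPred_eq, not_le] at hy
  fin_cases i
  · exact step0 hκ h0 h1 h6 x hy.le
  · exact step1 hκ h0 h1 h6 x

/-! ### the hypotheses -/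

/-- the matrices -/
def mats : Fin 2 → Matrix (Fin 2) (Fin 2) ℝ := ![!![-2, 0; 2, 1], !![1, 0; 0, -2]]

/-- the vectors -/
def vecs : Fin 2 → Fin 2 → ℝ := ![![1, 2], ![1, 0]]

lemma sum_tendsto : Tendsto (fun x : Fin 2 → ℕ => ∑ l, (x l : ℝ)) cofinite atTop := by
  rw [tendsto_atTop]
  intro b
  obtain ⟨N, hN⟩ := exists_nat_gt b
  rw [eventually_cofinite]
  refine (Set.finite_Iic (fun _ : Fin 2 => N)).subset fun x hx => ?_
  simp only [Set.mem_ofPred_eq, not_le, Fin.sum_univ_two] at hx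
  have h0 : (0 : ℝ) ≤ x 0 := by positivity
  have h1 : (0 : ℝ) ≤ x 1 := by positivity
  intro m
  fin_cases m
  · change x 0 ≤ N
    have : (x 0 : ℝ) < N := by linarith
    exact_mod_cast this.le
  · change x 1 ≤ N
    have : (x 1 : ℝ) < N := by linarith
    exact_mod_cast this.le

lemma isDrift_of (R : Network 2) (M : Matrix (Fin 2) (Fin 2) ℝ) (c : Fin 2 → ℝ)
    (h : ∀ m (x : Fin 2 → ℕ), (R.sum fun r c => (massAction c r.1 x : ℝ) *
      ((r.2 m : ℝ) - r.1 m)) - M.mulVec (fun l => (x l : ℝ)) m = c m) : IsDrift R M := by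
  intro m
  simp_rw [h m]
  rw [Asymptotics.isLittleO_const_left]
  right
  exact tendsto_norm_atTop_atTop.comp sum_tendsto

lemma drift_net0 : IsDrift net0 !![-2, 0; 2, 1] := by
  refine isDrift_of _ _ ![1, 0] fun m x => ?_
  rw [net0, sum_net]
  · fin_cases m
    · simp [ma1, ma2, ma0, Matrix.mulVec, dotProduct, Fin.sum_univ_two]
    · simp [ma1, ma2, ma0, Matrix.mulVec, dotProduct, Fin.sum_univ_two]
      ring
  · intro r; rw [massAction_zero]; simp
  · intro r c c'; rw [massAction_add]; push_cast; ring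

lemma drift_net1 : IsDrift net1 !![1, 0; 0, -2] := by
  refine isDrift_of _ _ ![1, 0] fun m x => ?_
  rw [net1, sum_net]
  · fin_cases m
    · simp [ma1, ma2, ma0, Matrix.mulVec, dotProduct, Fin.sum_univ_two]
      ring
    · simp [ma1, ma2, ma0, Matrix.mulVec, dotProduct, Fin.sum_univ_two]
  · intro r; rw [massAction_zero]; simp
  · intro r c c'; rw [massAction_add]; push_cast; ring

lemma e0 : (![1, 0] : Fin 2 → ℕ) = Pi.single 0 1 := by
  ext i; fin_cases i <;> simp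

lemma e1 : (![0, 1] : Fin 2 → ℕ) = Pi.single 1 1 := by
  ext i; fin_cases i <;> simp

lemma mono_of (r1 r2 r3 : (Fin 2 → ℕ) × (Fin 2 → ℕ)) (c1 c2 c3 : ℝ≥0)
    (h1 : r1.1 = 0 ∨ ∃ l, r1.1 = Pi.single l 1) (h2 : r2.1 = 0 ∨ ∃ l, r2.1 = Pi.single l 1)
    (h3 : r3.1 = 0 ∨ ∃ l, r3.1 = Pi.single l 1) :
    AtMostMonomolecular (Finsupp.single r1 c1 + Finsupp.single r2 c2 + Finsupp.single r3 c3) := by
  classical
  intro r hr
  have : r = r1 ∨ r = r2 ∨ r = r3 := by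
    by_contra h
    push Not at h
    rw [Finsupp.mem_support_iff] at hr
    refine hr ?_
    rw [Finsupp.add_apply, Finsupp.add_apply, Finsupp.single_eq_of_ne h.1,
      Finsupp.single_eq_of_ne h.2.1, Finsupp.single_eq_of_ne h.2.2]
    simp
  rcases this with rfl | rfl | rfl
  · exact h1
  · exact h2
  · exact h3

lemma mono_net0 : AtMostMonomolecular net0 :=
  mono_of _ _ _ _ _ _ (Or.inr ⟨0, e0⟩) (Or.inr ⟨1, e1⟩) (Or.inl rfl)

lemma mono_net1 : AtMostMonomolecular net1 :=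
  mono_of _ _ _ _ _ _ (Or.inr ⟨0, e0⟩) (Or.inr ⟨1, e1⟩) (Or.inl rfl)

lemma vecs_pos (i m : Fin 2) (h : vecs i m ≠ 0) : 0 < (Matrix.vecMul (vecs i) (mats i)) m := by
  fin_cases i <;> fin_cases m <;>
    simp [vecs, mats, Matrix.vecMul, dotProduct, Fin.sum_univ_two] at h ⊢

end

end Pool.Agent.R957.Crn
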