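import Pool.Agent.R957.Crn.Time

open Filter Set MeasureTheory ProbabilityTheory Topology
open scoped ENNReal NNReal

namespace Pool.Agent.R957.Crn

noncomputable section

section General

variable {d n : ℕ} (R : Fin n → Network d) (Q : Fin n → Fin n → ℝ≥0) (κ : ℝ≥0)

lemma tsum_single {T : Type} (t : T) (w : ℝ≥0∞) (H : T → ℝ≥0∞) [DecidableEq T] :
    ∑' z', (if z' = t then w else 0) * H z' = w * H t := by
  rw [tsum_eq_single t]
  · simp
  · intro z' hz'; simp [hz']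

lemma tsum_rate (z : (Fin d → ℕ) × Fin n) (H : (Fin d → ℕ) × Fin n → ℝ≥0∞) :
    ∑' z', rate R Q κ z z' * H z' =
      ((R z.2).sum fun r c => (massAction c r.1 z.1 : ℝ≥0∞) * H (z.1 + r.2 - r.1, z.2)) +
      ∑ j ∈ Finset.univ.erase z.2, (κ * Q z.2 j : ℝ≥0) * H (z.1, j) := by
  classical
  have hr : ∀ z', rate R Q κ z z' * H z' = ((R z.2).sum fun r c =>
      if z' = (z.1 + r.2 - r.1, z.2) then (massAction c r.1 z.1 : ℝ≥0∞) else 0) * H z' +
      ∑ j ∈ Finset.univ.erase z.2, (if z' = (z.1, j) then ((κ * Q z.2 j : ℝ≥0) : ℝ≥0∞) else 0)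
        * H z' := by
    intro z'
    unfold rate
    rw [add_mul, ← Finset.sum_mul]
  simp_rw [hr]
  rw [ENNReal.tsum_add]
  congr 1
  · unfold Finsupp.sum
    simp_rw [Finset.sum_mul]
    rw [Summable.tsum_finsetSum (fun _ _ => ENNReal.summable)]
    refine Finset.sum_congr rfl fun r _ => ?_
    convert tsum_single (z.1 + r.2 - r.1, z.2) ((massAction (R z.2 r) r.1 z.1 : ℝ≥0) : ℝ≥0∞) H
  · rw [Summable.tsum_finsetSum (fun _ _ => ENNReal.summable)]
    refine Finset.sum_congr rfl fun j _ => ?_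
    have := tsum_single (z.1, j) ((κ * Q z.2 j : ℝ≥0) : ℝ≥0∞) H
    rw [← this]

end General

/-! ### the example -/

/-- environment 0: `S₁ → S₂` with constant `2`, `S₂ → 2 S₂` and `0 → S₁` with constant `1` -/
def net0 : Network 2 :=
  Finsupp.single (![1, 0], ![0, 1]) 2 + Finsupp.single (![0, 1], ![0, 2]) 1 +
    Finsupp.single (0, ![1, 0]) 1

/-- environment 1: `S₁ → 2 S₁` and `0 → S₁` with constant `1`, `S₂ → 0` with constant `2` -/
def net1 : Network 2 :=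
  Finsupp.single (![1, 0], ![2, 0]) 1 + Finsupp.single (![0, 1], 0) 2 +
    Finsupp.single (0, ![1, 0]) 1

/-- the two environments -/
def nets : Fin 2 → Network 2 := ![net0, net1]

/-- switching rates -/
def sw : Fin 2 → Fin 2 → ℝ≥0 := fun _ _ => 1

lemma massAction_add (c c' : ℝ≥0) (y x : Fin 2 → ℕ) :
    massAction (c + c') y x = massAction c y x + massAction c' y x := by
  unfold massAction; ring

lemma massAction_zero (y x : Fin 2 → ℕ) : massAction 0 y x = 0 := by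
  unfold massAction; ring

lemma sum_net {M : Type} [AddCommMonoid M] (g : (Fin 2 → ℕ) × (Fin 2 → ℕ) → ℝ≥0 → M)
    (h0 : ∀ r, g r 0 = 0) (hadd : ∀ r c c', g r (c + c') = g r c + g r c')
    (r1 r2 r3 : (Fin 2 → ℕ) × (Fin 2 → ℕ)) (c1 c2 c3 : ℝ≥0) :
    (Finsupp.single r1 c1 + Finsupp.single r2 c2 + Finsupp.single r3 c3).sum g =
      g r1 c1 + g r2 c2 + g r3 c3 := by
  rw [Finsupp.sum_add_index' h0 hadd, Finsupp.sum_add_index' h0 hadd,
    Finsupp.sum_single_index (h0 _), Finsupp.sum_single_index (h0 _),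
    Finsupp.sum_single_index (h0 _)]

lemma ma1 (c : ℝ≥0) (x : Fin 2 → ℕ) : massAction c ![1, 0] x = c * x 0 := by
  simp [massAction, Fin.prod_univ_two]

lemma ma2 (c : ℝ≥0) (x : Fin 2 → ℕ) : massAction c ![0, 1] x = c * x 1 := by
  simp [massAction, Fin.prod_univ_two]

lemma ma0 (c : ℝ≥0) (x : Fin 2 → ℕ) : massAction c 0 x = c := by
  simp [massAction]

lemma vec_eq (x : Fin 2 → ℕ) : x = ![x 0, x 1] := by
  ext i; fin_cases i <;> rfl

/-- mean over the jumps in environment 0 -/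
lemma rate0 (κ : ℝ≥0) (x : Fin 2 → ℕ) (H : (Fin 2 → ℕ) × Fin 2 → ℝ≥0∞) :
    ∑' z', rate nets sw κ (x, 0) z' * H z' =
      2 * x 0 * H (![x 0 - 1, x 1 + 1], 0) + x 1 * H (![x 0, x 1 + 1], 0) +
        H (![x 0 + 1, x 1], 0) + κ * H (x, 1) := by
  rw [tsum_rate]
  have hn : nets 0 = net0 := rfl
  simp only [hn, net0]
  rw [sum_net]
  · have e1 : x + ![0, 1] - ![1, 0] = ![x 0 - 1, x 1 + 1] := by
      ext i; fin_cases i <;> simp [Matrix.vecHead, Matrix.vecTail]
    have e2 : x + ![0, 2] - ![0, 1] = ![x 0, x 1 + 1] := by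
      ext i; fin_cases i <;> simp [Matrix.vecHead, Matrix.vecTail]
    have e3 : x + ![1, 0] - 0 = ![x 0 + 1, x 1] := by
      ext i; fin_cases i <;> simp [Matrix.vecHead, Matrix.vecTail]
    have e4 : (Finset.univ.erase (0 : Fin 2)) = {1} := by decide
    simp only [e1, e2, e3, e4, ma1, ma2, ma0, Finset.sum_singleton, sw]
    push_cast
    ring
  · intro r; rw [massAction_zero]; simp
  · intro r c c'; rw [massAction_add]; push_cast; ring

/-- mean over the jumps in environment 1 -/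
lemma rate1 (κ : ℝ≥0) (x : Fin 2 → ℕ) (H : (Fin 2 → ℕ) × Fin 2 → ℝ≥0∞) :
    ∑' z', rate nets sw κ (x, 1) z' * H z' =
      (x 0 + 1) * H (![x 0 + 1, x 1], 1) + 2 * x 1 * H (![x 0, x 1 - 1], 1) +
        κ * H (x, 0) := by
  rw [tsum_rate]
  have hn : nets 1 = net1 := rfl
  simp only [hn, net1]
  rw [sum_net]
  · have e1 : x + ![2, 0] - ![1, 0] = ![x 0 + 1, x 1] := by
      ext i; fin_cases i <;> simp [Matrix.vecHead, Matrix.vecTail]
    have e2 : x + 0 - ![0, 1] = ![x 0, x 1 - 1] := by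
      ext i; fin_cases i <;> simp [Matrix.vecHead, Matrix.vecTail]
    have e3 : x + ![1, 0] - 0 = ![x 0 + 1, x 1] := by
      ext i; fin_cases i <;> simp [Matrix.vecHead, Matrix.vecTail]
    have e4 : (Finset.univ.erase (1 : Fin 2)) = {0} := by decide
    simp only [e1, e2, e3, e4, ma1, ma2, ma0, Finset.sum_singleton, sw]
    push_cast
    ring
  · intro r; rw [massAction_zero]; simp
  · intro r c c'; rw [massAction_add]; push_cast; ring

lemma total0 (κ : ℝ≥0) (x : Fin 2 → ℕ) :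
    total (rate nets sw κ) (x, 0) = ((2 * x 0 + x 1 + 1 + κ : ℝ≥0) : ℝ≥0∞) := by
  have := rate0 κ x (fun _ => 1)
  simp only [mul_one] at this
  unfold total
  rw [this]; push_cast; ring

lemma total1 (κ : ℝ≥0) (x : Fin 2 → ℕ) :
    total (rate nets sw κ) (x, 1) = ((x 0 + 1 + 2 * x 1 + κ : ℝ≥0) : ℝ≥0∞) := by
  have := rate1 κ x (fun _ => 1)
  simp only [mul_one] at this
  unfold total
  rw [this]; push_cast; ring

lemma total_ne_top (κ : ℝ≥0) (z : (Fin 2 → ℕ) × Fin 2) : total (rate nets sw κ) z ≠ ∞ := by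
  obtain ⟨x, i⟩ := z
  fin_cases i
  · change total (rate nets sw κ) (x, 0) ≠ ∞
    rw [total0]; exact ENNReal.coe_ne_top
  · change total (rate nets sw κ) (x, 1) ≠ ∞
    rw [total1]; exact ENNReal.coe_ne_top

lemma total_ne_zero (κ : ℝ≥0) (z : (Fin 2 → ℕ) × Fin 2) : total (rate nets sw κ) z ≠ 0 := by
  obtain ⟨x, i⟩ := z
  fin_cases i
  · change total (rate nets sw κ) (x, 0) ≠ 0
    rw [total0, ENNReal.coe_ne_zero]; positivity
  · change total (rate nets sw κ) (x, 1) ≠ 0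
    rw [total1, ENNReal.coe_ne_zero]; positivity

lemma jump_mean (κ : ℝ≥0) (z : (Fin 2 → ℕ) × Fin 2) (H : (Fin 2 → ℕ) × Fin 2 → ℝ≥0∞)
    (h : ∑' z', rate nets sw κ z z' * H z' ≤ total (rate nets sw κ) z * H z) :
    ∑' z', jump (rate nets sw κ) z z' * H z' ≤ H z := by
  unfold jump
  rw [dif_pos ⟨total_ne_zero κ z, total_ne_top κ z⟩]
  simp only [PMF.normalize_apply]
  have e : ∀ z', rate nets sw κ z z' * (∑' x, rate nets sw κ z x)⁻¹ * H z'
      = (total (rate nets sw κ) z)⁻¹ * (rate nets sw κ z z' * H z') := by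
    intro z'
    unfold total
    ring
  simp_rw [e]
  rw [ENNReal.tsum_mul_left]
  calc _ ≤ (total (rate nets sw κ) z)⁻¹ * (total (rate nets sw κ) z * H z) := by gcongr
    _ = H z := by
      rw [← mul_assoc, ENNReal.inv_mul_cancel (total_ne_zero κ z) (total_ne_top κ z), one_mul]

/-! ### Lyapunov function -/

/-- `(1 + n) ^ θ` -/
def uf (θ : ℝ) (n : ℕ) : ℝ := (1 + (n : ℝ)) ^ θ

/-- `(1 + n) ^ (θ - 1)` -/
def wf (θ : ℝ) (n : ℕ) : ℝ := (1 + (n : ℝ)) ^ (θ - 1)

variable {θ : ℝ}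

lemma uf_pos (n : ℕ) : 0 < uf θ n := by unfold uf; positivity

lemma wf_pos (n : ℕ) : 0 < wf θ n := by unfold wf; positivity

lemma uf_eq (n : ℕ) : uf θ n = (1 + n) * wf θ n := by
  unfold uf wf
  have h : (0 : ℝ) < 1 + n := by positivity
  rw [Real.rpow_sub h, Real.rpow_one]
  field_simp

lemma wf_anti (h1 : θ ≤ 1) {a m : ℕ} (h : a ≤ m) : wf θ m ≤ wf θ a := by
  unfold wf
  refine Real.rpow_le_rpow_of_nonpos (by positivity) ?_ (by linarith)
  have : (a : ℝ) ≤ m := by exact_mod_cast h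
  linarith

lemma wf_le_one (h1 : θ ≤ 1) (a : ℕ) : wf θ a ≤ 1 := by
  have h := wf_anti h1 (Nat.zero_le a)
  refine h.trans (le_of_eq ?_)
  simp [wf]

lemma uf_succ (h0 : 0 ≤ θ) (h1 : θ ≤ 1) (n : ℕ) : uf θ (n + 1) - uf θ n ≤ θ * wf θ n := by
  have hn : (0 : ℝ) < 1 + n := by positivity
  have e : uf θ (n + 1) = uf θ n * (1 + 1 / (1 + n)) ^ θ := by
    unfold uf
    rw [← Real.mul_rpow hn.le (by positivity)]
    congr 1
    push_cast
    field_simp
    ring
  have hb := rpow_one_add_le_one_add_mul_self (s := 1 / (1 + (n : ℝ)))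
    (by have : 0 ≤ 1 / (1 + (n : ℝ)) := by positivity
        linarith) h0 h1
  rw [e]
  have hu := uf_pos (θ := θ) n
  have h2 := mul_le_mul_of_nonneg_left hb hu.le
  have h3 : uf θ n * (1 + θ * (1 / (1 + n))) = uf θ n + θ * wf θ n := by
    rw [uf_eq]; field_simp
  linarith

lemma uf_pred (h0 : 0 ≤ θ) (h1 : θ ≤ 1) (n : ℕ) (hn1 : 1 ≤ n) :
    uf θ (n - 1) - uf θ n ≤ - (θ * wf θ n) := by
  have hn : (0 : ℝ) < 1 + n := by positivity
  have hle : (1 : ℝ) / (1 + n) ≤ 1 := by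
    rw [div_le_one hn]
    have : (0 : ℝ) ≤ n := by positivity
    linarith
  have e : uf θ (n - 1) = uf θ n * (1 + -(1 / (1 + n))) ^ θ := by
    unfold uf
    rw [← Real.mul_rpow hn.le (by linarith)]
    congr 1
    rw [Nat.cast_sub hn1]
    field_simp
    push_cast
    ring
  have hb := rpow_one_add_le_one_add_mul_self (s := -(1 / (1 + (n : ℝ)))) (by linarith) h0 h1
  rw [e]
  have hu := uf_pos (θ := θ) n
  have h2 := mul_le_mul_of_nonneg_left hb hu.le
  have h3 : uf θ n * (1 + θ * -(1 / (1 + n))) = uf θ n - θ * wf θ n := by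
    rw [uf_eq]; field_simp; ring
  linarith

/-- the Lyapunov function -/
def lyap (θ β : ℝ) (i : Fin 2) (a b : ℕ) : ℝ :=
  if i = 0 then 12 * uf θ a + (1 + β) * uf θ (a + b) else 12 * (1 + β) * uf θ a + uf θ (a + b)

lemma lyap_pos {β : ℝ} (hβ : 0 ≤ β) (i : Fin 2) (a b : ℕ) : 0 < lyap θ β i a b := by
  have h1 := uf_pos (θ := θ) a
  have h2 := uf_pos (θ := θ) (a + b)
  unfold lyap
  split_ifs <;> positivity

lemma le_lyap {β : ℝ} (hβ : 0 ≤ β) (i : Fin 2) (a b : ℕ) : uf θ (a + b) ≤ lyap θ β i a b := by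
  have h1 := uf_pos (θ := θ) a
  have h2 := uf_pos (θ := θ) (a + b)
  have h3 := mul_nonneg hβ h1.le
  have h4 := mul_nonneg hβ h2.le
  unfold lyap
  split_ifs <;> linarith

lemma drift0 {κ : ℝ} (hκ : 0 < κ) (h0 : 0 < θ) (h1 : θ ≤ 1) (h6 : θ ≤ κ / 6) (a b : ℕ)
    (hbig : 144 ≤ uf θ (a + b)) :
    2 * a * lyap θ (3 * θ / (2 * κ)) 0 (a - 1) (b + 1) + b * lyap θ (3 * θ / (2 * κ)) 0 a (b + 1) +
      lyap θ (3 * θ / (2 * κ)) 0 (a + 1) b + κ * lyap θ (3 * θ / (2 * κ)) 1 a b ≤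
    (2 * a + b + 1 + κ) * lyap θ (3 * θ / (2 * κ)) 0 a b := by
  set β := 3 * θ / (2 * κ) with hβ
  have hκβ : κ * β = 3 / 2 * θ := by rw [hβ]; field_simp
  have hβ0 : 0 ≤ β := by rw [hβ]; positivity
  have hβ1 : β ≤ 1 / 4 := by
    rw [hβ, div_le_iff₀ (by positivity)]; linarith
  simp only [lyap, if_true, one_ne_zero, if_false]
  have ew : uf θ (a + b) = (1 + a + b) * wf θ (a + b) := by rw [uf_eq]; push_cast; ring
  have ewa : uf θ a = (1 + a) * wf θ a := uf_eq a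
  have hwa := wf_pos (θ := θ) a
  have hwm := wf_pos (θ := θ) (a + b)
  have hwa1 := wf_le_one h1 a
  have hs1 := uf_succ h0.le h1 a
  have hs2 := uf_succ h0.le h1 (a + b)
  have ha0 : (0 : ℝ) ≤ a := by positivity
  have hb0 : (0 : ℝ) ≤ b := by positivity
  -- first term
  have t1 : 2 * (a : ℝ) * (12 * uf θ (a - 1) + (1 + β) * uf θ (a - 1 + (b + 1))) ≤
      2 * a * (12 * (uf θ a - θ * wf θ a) + (1 + β) * uf θ (a + b)) := by
    rcases Nat.eq_zero_or_pos a with ha | ha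
    · subst ha; simp
    · have e : a - 1 + (b + 1) = a + b := by omega
      rw [e]
      have := uf_pred h0.le h1 a ha
      gcongr
      linarith
  have e1 : a + (b + 1) = a + b + 1 := by ring
  have e2 : a + 1 + b = a + b + 1 := by ring
  rw [e1, e2]
  have t2 : (b : ℝ) * (12 * uf θ a + (1 + β) * uf θ (a + b + 1)) ≤
      b * (12 * uf θ a + (1 + β) * (uf θ (a + b) + θ * wf θ (a + b))) := by
    gcongr; linarith
  have t3 : 12 * uf θ (a + 1) + (1 + β) * uf θ (a + b + 1) ≤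
      12 * (uf θ a + θ * wf θ a) + (1 + β) * (uf θ (a + b) + θ * wf θ (a + b)) := by
    gcongr <;> linarith
  -- key inequality
  have hfin : 12 * θ * wf θ a * (-2 * a + 1) + (1 + β) * θ * wf θ (a + b) * (b + 1) +
      (18 * θ * uf θ a - 3 / 2 * θ * uf θ (a + b)) ≤ 0 := by
    rw [ewa]
    have hm : (1 + β) * (wf θ (a + b) * (b + 1)) ≤ 5 / 4 * uf θ (a + b) := by
      rw [ew]
      have h2 : wf θ (a + b) * (b + 1) ≤ (1 + a + b) * wf θ (a + b) := by nlinarith
      have h3 : 0 ≤ wf θ (a + b) * (b + 1) := by positivity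
      nlinarith
    have hx : wf θ a * (-2 * a + 1) + 3 / 2 * ((1 + a) * wf θ a) ≤ 5 / 2 := by
      have : wf θ a * (-2 * a + 1) + 3 / 2 * ((1 + a) * wf θ a) = wf θ a * (5 / 2 - a / 2) := by
        ring
      rw [this]
      have h5 : wf θ a * (5 / 2 - a / 2) ≤ wf θ a * (5 / 2) := by
        gcongr; linarith
      linarith
    have : 12 * θ * wf θ a * (-2 * a + 1) + (1 + β) * θ * wf θ (a + b) * (b + 1) +
      (18 * θ * ((1 + a) * wf θ a) - 3 / 2 * θ * uf θ (a + b)) =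
      θ * (12 * (wf θ a * (-2 * a + 1) + 3 / 2 * ((1 + a) * wf θ a)) +
        (1 + β) * (wf θ (a + b) * (b + 1)) - 3 / 2 * uf θ (a + b)) := by ring
    rw [this]
    refine mul_nonpos_of_nonneg_of_nonpos h0.le ?_
    linarith
  have hk1 : κ * (12 * (1 + β) * uf θ a + uf θ (a + b)) =
      κ * (12 * uf θ a + (1 + β) * uf θ (a + b)) + 12 * (κ * β) * uf θ a
        - κ * β * uf θ (a + b) := by ring
  rw [hk1, hκβ]
  nlinarith [t1, t2, t3, hfin]

lemma drift1 {κ : ℝ} (hκ : 0 < κ) (h0 : 0 < θ) (h1 : θ ≤ 1) (h6 : θ ≤ κ / 6) (a b : ℕ) :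
    (a + 1) * lyap θ (3 * θ / (2 * κ)) 1 (a + 1) b + 2 * b * lyap θ (3 * θ / (2 * κ)) 1 a (b - 1) +
      κ * lyap θ (3 * θ / (2 * κ)) 0 a b ≤
    (a + 1 + 2 * b + κ) * lyap θ (3 * θ / (2 * κ)) 1 a b := by
  set β := 3 * θ / (2 * κ) with hβ
  have hκβ : κ * β = 3 / 2 * θ := by rw [hβ]; field_simp
  have hβ0 : 0 ≤ β := by rw [hβ]; positivity
  have hβ1 : β ≤ 1 / 4 := by
    rw [hβ, div_le_iff₀ (by positivity)]; linarith
  simp only [lyap, if_true, one_ne_zero, if_false]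
  have ew : uf θ (a + b) = (1 + a + b) * wf θ (a + b) := by rw [uf_eq]; push_cast; ring
  have ewa : uf θ a = (1 + a) * wf θ a := uf_eq a
  have hwa := wf_pos (θ := θ) a
  have hwm := wf_pos (θ := θ) (a + b)
  have hanti := wf_anti h1 (Nat.le_add_right a b)
  have hs1 := uf_succ h0.le h1 a
  have hs2 := uf_succ h0.le h1 (a + b)
  have ha0 : (0 : ℝ) ≤ a := by positivity
  have hb0 : (0 : ℝ) ≤ b := by positivity
  have e2 : a + 1 + b = a + b + 1 := by ring
  rw [e2]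
  have t1 : ((a : ℝ) + 1) * (12 * (1 + β) * uf θ (a + 1) + uf θ (a + b + 1)) ≤
      (a + 1) * (12 * (1 + β) * (uf θ a + θ * wf θ a) + (uf θ (a + b) + θ * wf θ (a + b))) := by
    gcongr <;> linarith
  have t2 : 2 * (b : ℝ) * (12 * (1 + β) * uf θ a + uf θ (a + (b - 1))) ≤
      2 * b * (12 * (1 + β) * uf θ a + (uf θ (a + b) - θ * wf θ (a + b))) := by
    rcases Nat.eq_zero_or_pos b with hb | hb
    · subst hb; simp
    · have e : a + (b - 1) = a + b - 1 := by omega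
      rw [e]
      have := uf_pred h0.le h1 (a + b) (by omega)
      gcongr
      linarith
  have hfin : 12 * (1 + β) * θ * (wf θ a * (a + 1)) + θ * wf θ (a + b) * (a + 1 - 2 * b) +
      (3 / 2 * θ * uf θ (a + b) - 18 * θ * uf θ a) ≤ 0 := by
    rw [ewa, ew]
    have hA : 0 ≤ wf θ a * (a + 1) := by positivity
    have : 12 * (1 + β) * θ * (wf θ a * (a + 1)) + θ * wf θ (a + b) * (a + 1 - 2 * b) +
      (3 / 2 * θ * ((1 + a + b) * wf θ (a + b)) - 18 * θ * ((1 + a) * wf θ a)) =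
      θ * ((12 * (1 + β) - 18) * (wf θ a * (a + 1)) +
        wf θ (a + b) * (5 / 2 * (a + 1) - b / 2)) := by ring
    rw [this]
    refine mul_nonpos_of_nonneg_of_nonpos h0.le ?_
    have h3 : (12 * (1 + β) - 18) * (wf θ a * (a + 1)) ≤ -3 * (wf θ a * (a + 1)) := by
      gcongr; linarith
    have h4 : wf θ (a + b) * (5 / 2 * (a + 1) - b / 2) ≤ wf θ (a + b) * (5 / 2 * (a + 1)) := by
      gcongr; linarith
    have h5 : wf θ (a + b) * (5 / 2 * (a + 1)) ≤ wf θ a * (5 / 2 * (a + 1)) := by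
      gcongr
    nlinarith
  have hk1 : κ * (12 * uf θ a + (1 + β) * uf θ (a + b)) =
      κ * (12 * (1 + β) * uf θ a + uf θ (a + b)) - 12 * (κ * β) * uf θ a
        + κ * β * uf θ (a + b) := by ring
  rw [hk1, hκβ]
  nlinarith [t1, t2, hfin]

end

end Pool.Agent.R957.Crn
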