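import Pool.Agent.R957.Crn.Chain

open Filter Set MeasureTheory ProbabilityTheory Topology
open scoped ENNReal NNReal

namespace Pool.Agent.R957.Crn

noncomputable section

/-- law of the holding variables -/
def expLaw : Measure (ℕ → ℝ) := Measure.infinitePi fun _ : ℕ => expMeasure 1

instance : IsProbabilityMeasure (expMeasure 1) := isProbabilityMeasure_expMeasure one_pos

instance : IsProbabilityMeasure expLaw := by unfold expLaw; infer_instance

lemma exp_Iic (x : ℝ) (hx : 0 ≤ x) : (expMeasure 1).real (Iic x) = 1 - Real.exp (-x) := by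
  rw [← cdf_eq_real, cdf_expMeasure_eq one_pos, if_pos hx, one_mul]

lemma exp_pos : ∀ᵐ e ∂expLaw, ∀ k, 0 < e k := by
  rw [ae_all_iff]
  intro k
  have h1 : expLaw.map (fun e => e k) = expMeasure 1 := by
    unfold expLaw; exact Measure.infinitePi_map_eval (μ := fun _ : ℕ => expMeasure 1) k
  have h2 : ∀ᵐ x ∂(expLaw.map (fun e => e k)), 0 < x := by
    rw [h1, ae_iff]
    have h3 : {x : ℝ | ¬ 0 < x} = Iic 0 := by ext x; simp
    have h4 := exp_Iic 0 le_rfl
    rw [neg_zero, Real.exp_zero, sub_self, measureReal_eq_zero_iff] at h4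
    rw [h3, h4]
  exact ae_of_ae_map (measurable_pi_apply k).aemeasurable h2

/-- infinitely many of the `e k`, `k ∈ I`, are larger than `1` -/
lemma exp_large (I : Set ℕ) (hI : I.Infinite) :
    ∀ᵐ e ∂expLaw, ∃ᶠ k in atTop, k ∈ I ∧ 1 < e k := by
  classical
  have hind : iIndepFun (fun (k : ℕ) (e : ℕ → ℝ) => e k) expLaw :=
    iIndepFun_infinitePi (X := fun (_ : ℕ) (x : ℝ) => x) fun _ => measurable_id
  let s : ℕ → Set (ℕ → ℝ) := fun k => {e | k ∈ I ∧ 1 < e k}
  have hs : ∀ k, s k = (fun e : ℕ → ℝ => e k) ⁻¹' (if k ∈ I then Ioi 1 else ∅) := by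
    intro k
    by_cases h : k ∈ I
    · ext e; simp [s, h]
    · ext e; simp [s, h]
  have hm : ∀ k, MeasurableSet (if k ∈ I then Ioi (1 : ℝ) else ∅) := by
    intro k; split_ifs
    · exact measurableSet_Ioi
    · exact MeasurableSet.empty
  have hsm : ∀ k, MeasurableSet (s k) := fun k => by
    rw [hs]; exact (measurable_pi_apply k) (hm k)
  have hset : iIndepSet s expLaw := by
    rw [iIndepSet_iff_meas_biInter hsm]
    intro t
    have := hind.measure_inter_preimage_eq_mul t (sets := fun k => if k ∈ I then Ioi (1 : ℝ) else ∅)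
      (fun k _ => hm k)
    simp_rw [hs]
    exact this
  have hprob : ∀ k ∈ I, expLaw (s k) = ENNReal.ofReal (Real.exp (-1)) := by
    intro k hk
    rw [hs, if_pos hk]
    have h1 : expLaw.map (fun e => e k) = expMeasure 1 := by
      unfold expLaw; exact Measure.infinitePi_map_eval (μ := fun _ : ℕ => expMeasure 1) k
    rw [← Measure.map_apply (measurable_pi_apply k) measurableSet_Ioi, h1]
    have h2 : (expMeasure 1).real (Ioi 1) = Real.exp (-1) := by
      rw [← compl_Iic, measureReal_compl measurableSet_Iic, probReal_univ, exp_Iic 1 zero_le_one]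
      ring
    rw [← h2, Measure.real, ENNReal.ofReal_toReal (measure_ne_top _ _)]
  have hsum : ∑' k, expLaw (s k) = ∞ := by
    by_contra hne
    have h1 := ENNReal.tendsto_cofinite_zero_of_tsum_ne_top hne
    have h2 : ∀ᶠ k in cofinite, expLaw (s k) < ENNReal.ofReal (Real.exp (-1)) :=
      h1.eventually (gt_mem_nhds (by simpa using Real.exp_pos (-1)))
    have h3 : I ⊆ {k | ¬ expLaw (s k) < ENNReal.ofReal (Real.exp (-1))} := by
      intro k hk
      simp [hprob k hk]
    exact hI (Set.Finite.subset h2 h3)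
  have hlim := measure_limsup_eq_one hsm hset hsum
  have hmm : MeasurableSet (limsup s atTop) := MeasurableSet.measurableSet_limsup hsm
  have hae : ∀ᵐ e ∂expLaw, e ∈ limsup s atTop := by
    rw [ae_iff]
    have := (prob_compl_eq_zero_iff hmm).2 hlim
    exact this
  filter_upwards [hae] with e he
  rw [mem_limsup_iff_frequently_mem] at he
  exact he

variable {S : Type} [MeasurableSpace S] [DiscreteMeasurableSpace S] [Countable S]

omit [DiscreteMeasurableSpace S] [Countable S] in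
theorem law_eq (q : S → S → ℝ≥0∞) : law q = (mapLaw (jump q)).prod expLaw := rfl

/-- if the chain visits `K` infinitely often, so it does with long holding times -/
lemma visits (p : S → PMF S) (z : S) (K : Finset S) :
    ∀ᵐ ω ∂((mapLaw p).prod expLaw), (∃ᶠ n in atTop, chain z ω.1 n ∈ K) →
      ∃ᶠ n in atTop, chain z ω.1 n ∈ K ∧ 1 < ω.2 n := by
  have hm1 : ∀ n, Measurable fun ω : (ℕ × S → S) × (ℕ → ℝ) => chain z ω.1 n := fun n =>
    (chain_meas' z n).comp measurable_fst
  have hA : MeasurableSet {ω : (ℕ × S → S) × (ℕ → ℝ) | ∃ᶠ n in atTop, chain z ω.1 n ∈ K} := by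
    have e : {ω : (ℕ × S → S) × (ℕ → ℝ) | ∃ᶠ n in atTop, chain z ω.1 n ∈ K}
        = limsup (fun n => {ω : (ℕ × S → S) × (ℕ → ℝ) | chain z ω.1 n ∈ K}) atTop := by
      ext ω; rw [mem_limsup_iff_frequently_mem]; rfl
    rw [e]
    exact MeasurableSet.measurableSet_limsup fun n =>
      hm1 n (MeasurableSet.of_discrete (s := {x : S | x ∈ K}))
  have hB : MeasurableSet {ω : (ℕ × S → S) × (ℕ → ℝ) |
      ∃ᶠ n in atTop, chain z ω.1 n ∈ K ∧ 1 < ω.2 n} := by
    have e : {ω : (ℕ × S → S) × (ℕ → ℝ) | ∃ᶠ n in atTop, chain z ω.1 n ∈ K ∧ 1 < ω.2 n}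
        = limsup (fun n => {ω : (ℕ × S → S) × (ℕ → ℝ) | chain z ω.1 n ∈ K ∧ 1 < ω.2 n}) atTop := by
      ext ω; rw [mem_limsup_iff_frequently_mem]; rfl
    rw [e]
    refine MeasurableSet.measurableSet_limsup fun n => ?_
    refine (hm1 n (MeasurableSet.of_discrete (s := {x : S | x ∈ K}))).inter ?_
    exact ((measurable_pi_apply n).comp measurable_snd) measurableSet_Ioi
  rw [ae_iff]
  have hset : MeasurableSet {ω : (ℕ × S → S) × (ℕ → ℝ) |
      ¬ ((∃ᶠ n in atTop, chain z ω.1 n ∈ K) → ∃ᶠ n in atTop, chain z ω.1 n ∈ K ∧ 1 < ω.2 n)} := by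
    have e : {ω : (ℕ × S → S) × (ℕ → ℝ) |
      ¬ ((∃ᶠ n in atTop, chain z ω.1 n ∈ K) → ∃ᶠ n in atTop, chain z ω.1 n ∈ K ∧ 1 < ω.2 n)}
        = {ω | ∃ᶠ n in atTop, chain z ω.1 n ∈ K} ∩
          {ω | ∃ᶠ n in atTop, chain z ω.1 n ∈ K ∧ 1 < ω.2 n}ᶜ := by
      ext ω
      simp only [Set.mem_ofPred_eq, Set.mem_inter_iff, Set.mem_compl_iff, Classical.not_imp]
    rw [e]
    exact hA.inter hB.compl
  rw [Measure.measure_prod_null hset]
  refine Eventually.of_forall fun f => ?_
  change expLaw _ = 0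
  by_cases hf : ∃ᶠ n in atTop, chain z f n ∈ K
  · have hI : {n | chain z f n ∈ K}.Infinite := Nat.frequently_atTop_iff_infinite.1 hf
    have h1 := exp_large _ hI
    rw [ae_iff] at h1
    refine measure_mono_null ?_ h1
    intro e he
    simp only [Set.mem_preimage, Set.mem_ofPred_eq, Classical.not_imp] at he
    exact he.2
  · have : Prod.mk f ⁻¹' {ω : (ℕ × S → S) × (ℕ → ℝ) |
      ¬ ((∃ᶠ n in atTop, chain z ω.1 n ∈ K) →
        ∃ᶠ n in atTop, chain z ω.1 n ∈ K ∧ 1 < ω.2 n)} = ∅ := by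
      ext e
      simp [hf]
    rw [this, measure_empty]

/-- no explosion -/
theorem no_explosion (q : S → S → ℝ≥0∞) (h1 : ∀ z, total q z ≠ ∞) (z : S)
    (hnt : ∀ᵐ f ∂(mapLaw (jump q)), ¬ Tendsto (chain z f) atTop cofinite) :
    ∀ᵐ ω ∂(law q), Tendsto (jumpTime q z ω) atTop (𝓝 ∞) := by
  rw [law_eq]
  have ha : ∀ᵐ ω ∂((mapLaw (jump q)).prod expLaw), ¬ Tendsto (chain z ω.1) atTop cofinite :=
    Measure.quasiMeasurePreserving_fst.ae hnt
  have hb : ∀ᵐ ω ∂((mapLaw (jump q)).prod expLaw), ∀ K : Finset S,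
      (∃ᶠ n in atTop, chain z ω.1 n ∈ K) → ∃ᶠ n in atTop, chain z ω.1 n ∈ K ∧ 1 < ω.2 n := by
    rw [ae_all_iff]
    exact fun K => visits (jump q) z K
  filter_upwards [ha, hb] with ω ha hb
  have hK : ∃ K : Finset S, ∃ᶠ n in atTop, chain z ω.1 n ∈ K := by
    rw [tendsto_def] at ha
    push Not at ha
    obtain ⟨U, hU, hn⟩ := ha
    rw [mem_cofinite] at hU
    refine ⟨hU.toFinset, ?_⟩
    have : ∃ᶠ n in atTop, ¬ chain z ω.1 n ∈ U := fun h => hn (by
      filter_upwards [h] with n h; exact not_not.1 h)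
    simpa using this
  obtain ⟨K, hK⟩ := hK
  have hfr := hb K hK
  have hsum : ∑' k, ENNReal.ofReal (ω.2 k) / total q (chain z ω.1 k) = ∞ := by
    by_contra hne
    have h2 := ENNReal.tendsto_cofinite_zero_of_tsum_ne_top hne
    rw [Nat.cofinite_eq_atTop] at h2
    -- lower bound
    have hC : ∃ C : ℝ≥0∞, C ≠ ∞ ∧ ∀ x ∈ K, total q x ≤ C :=
      ⟨∑ x ∈ K, total q x, by simpa [ENNReal.sum_eq_top] using fun x _ => h1 x,
        fun x hx => Finset.single_le_sum (f := fun x => total q x) (fun _ _ => zero_le) hx⟩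
    obtain ⟨C, hC1, hC2⟩ := hC
    have hCpos : 0 < C⁻¹ := ENNReal.inv_pos.2 hC1
    have h3 := h2.eventually (gt_mem_nhds hCpos)
    obtain ⟨k, ⟨hk1, hk2⟩, hk3⟩ := (hfr.and_eventually h3).exists
    refine absurd hk3 (not_lt.2 ?_)
    rw [ENNReal.div_eq_inv_mul]
    calc C⁻¹ = C⁻¹ * 1 := (mul_one _).symm
      _ ≤ (total q (chain z ω.1 k))⁻¹ * ENNReal.ofReal (ω.2 k) := by
        refine mul_le_mul' (ENNReal.inv_le_inv.2 (hC2 _ hk1)) ?_
        rw [← ENNReal.ofReal_one]
        exact ENNReal.ofReal_le_ofReal hk2.le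
  have := ENNReal.tendsto_nat_tsum fun k => ENNReal.ofReal (ω.2 k) / total q (chain z ω.1 k)
  rw [hsum] at this
  exact this

/-- the chain in continuous time does not tend to infinity -/
theorem not_evanescent (q : S → S → ℝ≥0∞) (h0 : ∀ z, total q z ≠ 0) (h1 : ∀ z, total q z ≠ ∞)
    (z : S) (hnt : ∀ᵐ f ∂(mapLaw (jump q)), ¬ Tendsto (chain z f) atTop cofinite)
    (F : S → ℕ) :
    ∀ᵐ ω ∂(law q), ¬ Tendsto (fun t => F (stateAt q z ω t)) atTop atTop := by
  have hexp := no_explosion q h1 z hnt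
  rw [law_eq] at hexp ⊢
  have ha : ∀ᵐ ω ∂((mapLaw (jump q)).prod expLaw), ¬ Tendsto (chain z ω.1) atTop cofinite :=
    Measure.quasiMeasurePreserving_fst.ae hnt
  have hc : ∀ᵐ ω ∂((mapLaw (jump q)).prod expLaw), ∀ k, 0 < ω.2 k :=
    Measure.quasiMeasurePreserving_snd.ae exp_pos
  filter_upwards [hexp, ha, hc] with ω hT ha hc hten
  refine ha ?_
  have hfin : ∀ n, jumpTime q z ω n ≠ ∞ := by
    intro n
    unfold jumpTime
    rw [ENNReal.sum_ne_top]
    intro k _
    exact ENNReal.div_ne_top ENNReal.ofReal_ne_top (h0 _)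
  have hlt : ∀ n, jumpTime q z ω n < jumpTime q z ω (n + 1) := by
    intro n
    have e : jumpTime q z ω (n + 1) = jumpTime q z ω n +
        ENNReal.ofReal (ω.2 n) / total q (chain z ω.1 n) := by
      unfold jumpTime; rw [Finset.sum_range_succ]
    rw [e]
    refine ENNReal.lt_add_right (hfin n) ?_
    rw [ne_eq, ENNReal.div_eq_zero_iff, not_or]
    exact ⟨by simpa using hc n, h1 _⟩
  have hmono : StrictMono (jumpTime q z ω) := strictMono_nat_of_lt_succ hlt
  have hst : ∀ n, stateAt q z ω (jumpTime q z ω n).toReal = chain z ω.1 n := by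
    intro n
    unfold stateAt
    rw [ENNReal.ofReal_toReal (hfin n)]
    congr 1
    have e : {m | jumpTime q z ω n < jumpTime q z ω (m + 1)} = Set.Ici n := by
      ext m
      simp only [Set.mem_ofPred_eq, Set.mem_Ici, hmono.lt_iff_lt]
      omega
    rw [e, csInf_Ici]
  have htr : Tendsto (fun n => (jumpTime q z ω n).toReal) atTop atTop := by
    rw [tendsto_atTop]
    intro b
    have := hT.eventually (lt_mem_nhds (a := ENNReal.ofReal b) ENNReal.ofReal_lt_top)
    filter_upwards [this] with n hn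
    exact (ENNReal.ofReal_le_iff_le_toReal (hfin n)).1 hn.le
  have h2 : Tendsto (fun n => F (chain z ω.1 n)) atTop atTop := by
    have := hten.comp htr
    simpa only [Function.comp_def, hst] using this
  rw [tendsto_def]
  intro U hU
  rw [mem_cofinite] at hU
  -- F is bounded on the complement of U
  obtain ⟨C, hC⟩ := (hU.image F).bddAbove
  filter_upwards [h2.eventually_gt_atTop C] with n hn
  by_contra hcon
  have := hC (Set.mem_image_of_mem F hcon)
  omega

end

end Pool.Agent.R957.Crn
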